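import Pool.Agent.H14R3.KK.Defs
import Pool.Agent.H14R3.KK.S.LMAXB
import Pool.Agent.H14R3.KK.S.INTEG
import Pool.Agent.H14R3.KK.S.ES
import Pool.Agent.H14R3.KK.S.WEAK

/-! Task VARB of project KK (MP_d47e08_pr). -/

set_option autoImplicit false
open MeasureTheory ProbabilityTheory Filter Topology

namespace KK14

namespace VARBx

open Polynomial in
/-- the polynomials of the derivatives of `exp (t ^ 2 / 2)` -/
noncomputable def PQ : ℕ → ℝ[X]
  | 0 => 1
  | (n + 1) => X * PQ n + derivative (PQ n)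

open Polynomial in
lemma PQ_deriv (n : ℕ) : derivative (PQ (n + 1)) = ((n : ℝ[X]) + 1) * PQ n := by
  induction n with
  | zero => simp [PQ]
  | succ n ih =>
    have h1 : PQ (n + 1 + 1) = X * PQ (n + 1) + derivative (PQ (n + 1)) := rfl
    have h2 : PQ (n + 1) = X * PQ n + derivative (PQ n) := rfl
    rw [h1, derivative_add, derivative_mul, derivative_X, ih, derivative_mul]
    simp only [derivative_add, derivative_natCast, derivative_one, zero_add, zero_mul]
    rw [h2]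
    push_cast
    ring

open Polynomial in
lemma PQ_eval (n : ℕ) : (PQ (n + 2)).eval 0 = ((n : ℝ) + 1) * (PQ n).eval 0 := by
  have h1 : PQ (n + 2) = X * PQ (n + 1) + derivative (PQ (n + 1)) := rfl
  rw [h1, PQ_deriv]
  simp

open Polynomial in
lemma iter_exp (n : ℕ) : iteratedDeriv n (fun t : ℝ => Real.exp (t ^ 2 / 2)) =
    fun t => (PQ n).eval t * Real.exp (t ^ 2 / 2) := by
  induction n with
  | zero =>
    funext t
    simp [PQ]
  | succ n ih =>
    rw [iteratedDeriv_succ, ih]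
    funext t
    have h1 : HasDerivAt (fun t : ℝ => Real.exp (t ^ 2 / 2)) (Real.exp (t ^ 2 / 2) * t) t := by
      have h2 : HasDerivAt (fun t : ℝ => t ^ 2 / 2) t t := by
        have h3 := (hasDerivAt_pow 2 t).div_const 2
        have h4 : ((2 : ℕ) : ℝ) * t ^ (2 - 1) / 2 = t := by
          norm_num
        rwa [h4] at h3
      exact h2.exp
    have h2 : HasDerivAt (fun t : ℝ => (PQ n).eval t * Real.exp (t ^ 2 / 2))
        ((derivative (PQ n)).eval t * Real.exp (t ^ 2 / 2) +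
          (PQ n).eval t * (Real.exp (t ^ 2 / 2) * t)) t := ((PQ n).hasDerivAt t).mul h1
    rw [h2.deriv]
    have h3 : PQ (n + 1) = X * PQ n + derivative (PQ n) := rfl
    rw [h3, eval_add, eval_mul, eval_X]
    ring

lemma gmom (n : ℕ) : ∫ x, x ^ n ∂(gaussianReal 0 1) = (PQ n).eval 0 := by
  have h1 : (0 : ℝ) ∈ interior (integrableExpSet id (gaussianReal 0 1)) := by
    rw [integrableExpSet_id_gaussianReal, interior_univ]
    trivial
  have h2 := iteratedDeriv_mgf_zero h1 n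
  have h3 : mgf id (gaussianReal 0 1) = fun t : ℝ => Real.exp (t ^ 2 / 2) := by
    rw [mgf_id_gaussianReal]
    funext t
    simp
  rw [h3, iter_exp] at h2
  simp only [ne_eq, OfNat.ofNat_ne_zero, not_false_eq_true, zero_pow, zero_div, Real.exp_zero,
    mul_one] at h2
  rw [h2]
  rfl

lemma PQ_zero : (PQ 0).eval 0 = 1 := by simp [PQ]

lemma PQ_one : (PQ 1).eval 0 = 0 := by simp [PQ]

lemma gmom1 : ∫ x, x ∂(gaussianReal 0 1) = 0 := by
  have h := gmom 1
  simp only [pow_one] at h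
  rw [h, PQ_one]

lemma gmom2 : ∫ x, x ^ 2 ∂(gaussianReal 0 1) = 1 := by
  rw [gmom 2, PQ_eval 0, PQ_zero]
  norm_num

lemma gmom8 : ∫ x, x ^ 8 ∂(gaussianReal 0 1) = 105 := by
  rw [gmom 8, PQ_eval 6, PQ_eval 4, PQ_eval 2, PQ_eval 0, PQ_zero]
  norm_num

lemma gint (n : ℕ) : Integrable (fun x : ℝ => x ^ n) (gaussianReal 0 1) := by
  have h := (memLp_id_gaussianReal (μ := 0) (v := 1) (n : NNReal)).integrable_norm_pow'
  refine (integrable_norm_iff (by fun_prop)).1 ?_
  refine h.congr (Filter.Eventually.of_forall fun x => ?_)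
  simp

lemma pi_int {n r : ℕ} (g : ℝ → ℝ) (hg : Continuous g) (S : Sub n r) :
    ∫ z, g (z S) ∂(gau n r) = ∫ x, g x ∂(gaussianReal 0 1) := by
  have h := (measurePreserving_eval (fun _ : Sub n r => gaussianReal 0 1) S).map_eq
  rw [← h, integral_map (measurable_pi_apply S).aemeasurable hg.aestronglyMeasurable]
  rfl

lemma pi_integrable {n r : ℕ} (g : ℝ → ℝ) (hg : Integrable g (gaussianReal 0 1)) (S : Sub n r) :
    Integrable (fun z => g (z S)) (gau n r) :=
  (measurePreserving_eval (fun _ : Sub n r => gaussianReal 0 1) S).integrable_comp_of_integrable hg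

instance gau_prob (n r : ℕ) : IsProbabilityMeasure (gau n r) := by
  unfold gau
  infer_instance

/-- the quadratic form of `S` -/
noncomputable def aS {n l : ℕ} (v : Sub n l → ℝ) (S : Sub n 2) : ℝ :=
  ∑ I, ∑ J, if symmDiff I.1 J.1 = S.1 then v I * v J else 0

lemma kik_diff {n l : ℕ} (z : Sub n 2 → ℝ) (S : Sub n 2) (t : ℝ) (I J : Sub n l) :
    kik n 2 l 0 z I J - kik n 2 l 0 (Function.update z S t) I J =
      if symmDiff I.1 J.1 = S.1 then z S - t else 0 := by
  unfold kik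
  by_cases h : (symmDiff I.1 J.1).card = 2
  · rw [dif_pos h, dif_pos h]
    by_cases hS : symmDiff I.1 J.1 = S.1
    · have e : (⟨symmDiff I.1 J.1, h⟩ : Sub n 2) = S := Subtype.ext hS
      rw [if_pos hS, e, Function.update_self]
      ring
    · have e : (⟨symmDiff I.1 J.1, h⟩ : Sub n 2) ≠ S := fun h' => hS (congrArg Subtype.val h')
      rw [if_neg hS, Function.update_of_ne e]
      ring
  · have hS : symmDiff I.1 J.1 ≠ S.1 := fun h' => h (by rw [h']; exact S.2)
    rw [dif_neg h, dif_neg h, if_neg hS, sub_zero]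

lemma diff_le {n l : ℕ} (z : Sub n 2 → ℝ) (v : Sub n l → ℝ) (hv : ∑ I, v I ^ 2 = 1)
    (hmax : lmax (kik n 2 l 0 z) = ∑ i, ∑ j, v i * kik n 2 l 0 z i j * v j) (S : Sub n 2) (t : ℝ) :
    lmax (kik n 2 l 0 z) - lmax (kik n 2 l 0 (Function.update z S t)) ≤ (z S - t) * aS v S := by
  have h1 := LMAXB (kik n 2 l 0 (Function.update z S t)) v hv
  have h2 : ∑ i, ∑ j, v i * kik n 2 l 0 z i j * v j -
      ∑ i, ∑ j, v i * kik n 2 l 0 (Function.update z S t) i j * v j = (z S - t) * aS v S := by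
    unfold aS
    rw [← Finset.sum_sub_distrib, Finset.mul_sum]
    refine Finset.sum_congr rfl fun I _ => ?_
    rw [← Finset.sum_sub_distrib, Finset.mul_sum]
    refine Finset.sum_congr rfl fun J _ => ?_
    have h3 := kik_diff z S t I J
    have h4 : v I * kik n 2 l 0 z I J * v J - v I * kik n 2 l 0 (Function.update z S t) I J * v J =
        v I * (kik n 2 l 0 z I J - kik n 2 l 0 (Function.update z S t) I J) * v J := by ring
    rw [h4, h3]
    split_ifs <;> ring
  rw [hmax]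
  linarith

lemma amgm (c x : ℝ) (hc : 0 < c) : x ^ 2 ≤ 3 / 4 * c + x ^ 8 / (4 * c ^ 3) := by
  have h1 : 0 ≤ (x ^ 2 - c) ^ 2 * (x ^ 4 + 2 * c * x ^ 2 + 3 * c ^ 2) := by positivity
  have h2 : 3 / 4 * c + x ^ 8 / (4 * c ^ 3) - x ^ 2 =
      (x ^ 2 - c) ^ 2 * (x ^ 4 + 2 * c * x ^ 2 + 3 * c ^ 2) / (4 * c ^ 3) := by
    field_simp
    ring
  have h3 : 0 ≤ 3 / 4 * c + x ^ 8 / (4 * c ^ 3) - x ^ 2 := by
    rw [h2]
    positivity
  linarith

/-- the inner integral -/
noncomputable def inn (n l : ℕ) (S : Sub n 2) (z : Sub n 2 → ℝ) : ℝ :=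
  ∫ t, (max (lmax (kik n 2 l 0 z) - lmax (kik n 2 l 0 (Function.update z S t))) 0) ^ 2
    ∂(gaussianReal 0 1)

lemma inn_nonneg (n l : ℕ) (S : Sub n 2) (z : Sub n 2 → ℝ) : 0 ≤ inn n l S z :=
  integral_nonneg fun _ => sq_nonneg _

lemma inn_meas (n l : ℕ) (S : Sub n 2) : StronglyMeasurable (inn n l S) := by
  have hf := (INTEG n 2 l 0).1
  have h1 : Continuous (fun p : (Sub n 2 → ℝ) × ℝ =>
      (max (lmax (kik n 2 l 0 p.1) - lmax (kik n 2 l 0 (Function.update p.1 S p.2))) 0) ^ 2) := by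
    have h2 : Continuous (fun p : (Sub n 2 → ℝ) × ℝ => Function.update p.1 S p.2) :=
      continuous_fst.update S continuous_snd
    exact (((hf.comp continuous_fst).sub (hf.comp h2)).max continuous_const).pow 2
  exact h1.stronglyMeasurable.integral_prod_right'

lemma inn_le (n l : ℕ) (S : Sub n 2) (z : Sub n 2 → ℝ) (v : Sub n l → ℝ) (hv : ∑ I, v I ^ 2 = 1)
    (hmax : lmax (kik n 2 l 0 z) = ∑ i, ∑ j, v i * kik n 2 l 0 z i j * v j) :
    inn n l S z ≤ aS v S ^ 2 * (z S ^ 2 + 1) := by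
  have hint : Integrable (fun t : ℝ => aS v S ^ 2 * (z S ^ 2 - 2 * z S * t + t ^ 2))
      (gaussianReal 0 1) := by
    have h1 := gint 1
    simp only [pow_one] at h1
    exact (((integrable_const _).sub (h1.const_mul _)).add (gint 2)).const_mul _
  have heq : ∫ t, aS v S ^ 2 * (z S ^ 2 - 2 * z S * t + t ^ 2) ∂(gaussianReal 0 1) =
      aS v S ^ 2 * (z S ^ 2 + 1) := by
    have h1 := gint 1
    simp only [pow_one] at h1
    have h2 : Integrable (fun t : ℝ => z S ^ 2 - 2 * z S * t) (gaussianReal 0 1) :=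
      (integrable_const _).sub (h1.const_mul _)
    rw [integral_const_mul, integral_add h2 (gint 2), integral_sub (integrable_const _)
      (h1.const_mul _), integral_const_mul, gmom1, gmom2, integral_const, probReal_univ, one_smul]
    ring
  rw [← heq]
  unfold inn
  refine integral_mono_of_nonneg (Filter.Eventually.of_forall fun t => sq_nonneg _) hint
    (Filter.Eventually.of_forall fun t => ?_)
  show (max (lmax (kik n 2 l 0 z) - lmax (kik n 2 l 0 (Function.update z S t))) 0) ^ 2 ≤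
    aS v S ^ 2 * (z S ^ 2 - 2 * z S * t + t ^ 2)
  have h1 := diff_le z v hv hmax S t
  have h2 : aS v S ^ 2 * (z S ^ 2 - 2 * z S * t + t ^ 2) = ((z S - t) * aS v S) ^ 2 := by ring
  rw [h2]
  rcases le_total (lmax (kik n 2 l 0 z) - lmax (kik n 2 l 0 (Function.update z S t))) 0 with h | h
  · rw [max_eq_right h, zero_pow two_ne_zero]
    exact sq_nonneg _
  · rw [max_eq_left h]
    exact pow_le_pow_left₀ h h1 2

end VARBx

open VARBx in
theorem VARB (n l : ℕ) (hn : 1 ≤ n) (hl : l ≤ n) :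
    ∫ Z, (lmax (kik n 2 l 0 Z) - Elm n 2 l 0) ^ 2 ∂(gau n 2) ≤ 16 * (l : ℝ) ^ 2 * √n := by
  have hne : Nonempty (Sub n l) := by
    obtain ⟨s, -, hs⟩ := Finset.exists_subset_card_eq (s := (Finset.univ : Finset (Fin n))) (n := l)
      (by rw [Finset.card_univ, Fintype.card_fin]; exact hl)
    exact ⟨⟨s, hs⟩⟩
  have hI := INTEG n 2 l 0
  have hES := ES (gaussianReal 0 1) (fun Z : Sub n 2 → ℝ => lmax (kik n 2 l 0 Z)) hI.1 (by
    have h := hI.2.2 2
    simp only [sq_abs] at h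
    exact h)
  have hES' : ∫ Z, (lmax (kik n 2 l 0 Z) - Elm n 2 l 0) ^ 2 ∂(gau n 2) ≤
      ∑ S, ∫ z, inn n l S z ∂(gau n 2) := hES
  refine le_trans hES' ?_
  have hl0 : (0 : ℝ) ≤ l := Nat.cast_nonneg l
  -- bounds for the inner integrals
  have hb1 : ∀ S z, inn n l S z ≤ 4 * (l : ℝ) ^ 2 * (z S ^ 2 + 1) := by
    intro S z
    obtain ⟨v, hv, hmax⟩ := LMAXX (kik n 2 l 0 z)
    refine le_trans (inn_le n l S z v hv hmax) ?_
    refine mul_le_mul_of_nonneg_right ?_ (by positivity)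
    refine le_trans ?_ (WEAK n l v hv)
    exact Finset.single_le_sum (f := fun S : Sub n 2 => (∑ I, ∑ J, if symmDiff I.1 J.1 = S.1
      then v I * v J else 0) ^ 2) (fun S _ => sq_nonneg _) (Finset.mem_univ S)
  have hint : ∀ S, Integrable (inn n l S) (gau n 2) := by
    intro S
    have h1 : Integrable (fun z : Sub n 2 → ℝ => 4 * (l : ℝ) ^ 2 * (z S ^ 2 + 1)) (gau n 2) :=
      ((pi_integrable (fun x => x ^ 2) (gint 2) S).add (integrable_const _)).const_mul _
    refine h1.mono' (inn_meas n l S).aestronglyMeasurable (Filter.Eventually.of_forall fun z => ?_)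
    rw [Real.norm_of_nonneg (inn_nonneg n l S z)]
    exact hb1 S z
  rw [← integral_finsetSum _ fun S _ => hint S]
  set s : ℝ := √n with hs
  have hs1 : 1 ≤ s := by
    rw [hs, Real.one_le_sqrt]
    exact_mod_cast hn
  have hs2 : s ^ 2 = n := Real.sq_sqrt (Nat.cast_nonneg n)
  have hs0 : 0 < s := by linarith
  have hc : 0 < 3 * s := by positivity
  have hg8 : ∀ S : Sub n 2, Integrable (fun z : Sub n 2 → ℝ => z S ^ 8) (gau n 2) := fun S =>
    pi_integrable (fun x => x ^ 8) (gint 8) S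
  have hb2 : ∀ z, ∑ S, inn n l S z ≤
      4 * (l : ℝ) ^ 2 * ((1 + 3 / 4 * (3 * s)) + (∑ T, z T ^ 8) / (4 * (3 * s) ^ 3)) := by
    intro z
    obtain ⟨v, hv, hmax⟩ := LMAXX (kik n 2 l 0 z)
    have h1 : ∀ S : Sub n 2, z S ^ 2 + 1 ≤
        (1 + 3 / 4 * (3 * s)) + (∑ T, z T ^ 8) / (4 * (3 * s) ^ 3) := by
      intro S
      have h2 := amgm (3 * s) (z S) hc
      have h3 : z S ^ 8 ≤ ∑ T, z T ^ 8 :=
        Finset.single_le_sum (f := fun T : Sub n 2 => z T ^ 8) (fun T _ => by positivity)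
          (Finset.mem_univ S)
      have h4 : z S ^ 8 / (4 * (3 * s) ^ 3) ≤ (∑ T, z T ^ 8) / (4 * (3 * s) ^ 3) :=
        div_le_div_of_nonneg_right h3 (by positivity)
      linarith
    refine le_trans (Finset.sum_le_sum fun S _ => le_trans (inn_le n l S z v hv hmax)
      (mul_le_mul_of_nonneg_left (h1 S) (sq_nonneg _))) ?_
    rw [← Finset.sum_mul]
    refine mul_le_mul_of_nonneg_right (WEAK n l v hv) ?_
    have : 0 ≤ ∑ T : Sub n 2, z T ^ 8 := Finset.sum_nonneg fun T _ => by positivity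
    positivity
  have hint2 : Integrable (fun z : Sub n 2 → ℝ =>
      4 * (l : ℝ) ^ 2 * ((1 + 3 / 4 * (3 * s)) + (∑ T, z T ^ 8) / (4 * (3 * s) ^ 3))) (gau n 2) :=
    ((integrable_const _).add ((integrable_finsetSum _ fun T _ => hg8 T).div_const _)).const_mul _
  have hmono := integral_mono (integrable_finsetSum _ fun S _ => hint S) hint2 hb2
  refine le_trans hmono ?_
  have hcalc : ∫ z : Sub n 2 → ℝ,
      4 * (l : ℝ) ^ 2 * ((1 + 3 / 4 * (3 * s)) + (∑ T, z T ^ 8) / (4 * (3 * s) ^ 3)) ∂(gau n 2) =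
      4 * (l : ℝ) ^ 2 * ((1 + 3 / 4 * (3 * s)) +
        ((Fintype.card (Sub n 2) : ℝ) * 105) / (4 * (3 * s) ^ 3)) := by
    rw [integral_const_mul, integral_add (integrable_const _)
      ((integrable_finsetSum _ fun T _ => hg8 T).div_const _), integral_div,
      integral_finsetSum _ fun T _ => hg8 T, integral_const, probReal_univ, one_smul]
    have h1 : ∀ T : Sub n 2, ∫ z, z T ^ 8 ∂(gau n 2) = 105 := fun T => by
      rw [pi_int (fun x => x ^ 8) (by fun_prop) T, gmom8]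
    rw [Finset.sum_congr rfl fun T _ => h1 T, Finset.sum_const, Finset.card_univ, nsmul_eq_mul]
  rw [hcalc]
  have hcard : (Fintype.card (Sub n 2) : ℝ) ≤ s ^ 4 / 2 := by
    have h1 : Fintype.card (Sub n 2) = n.choose 2 := by
      rw [Fintype.card_finset_len, Fintype.card_fin]
    rw [h1, Nat.cast_choose_two]
    have h2 : s ^ 4 = (n : ℝ) ^ 2 := by
      rw [← hs2]
      ring
    rw [h2]
    have : (0 : ℝ) ≤ n := Nat.cast_nonneg n
    nlinarith
  have h5 : ((Fintype.card (Sub n 2) : ℝ) * 105) / (4 * (3 * s) ^ 3) ≤ s / 2 := by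
    rw [div_le_iff₀ (by positivity)]
    have h6 : s / 2 * (4 * (3 * s) ^ 3) = 54 * s ^ 4 := by ring
    rw [h6]
    nlinarith [pow_pos hs0 4]
  have h7 : 0 ≤ 4 * (l : ℝ) ^ 2 := by positivity
  have h8 : (1 + 3 / 4 * (3 * s)) + ((Fintype.card (Sub n 2) : ℝ) * 105) / (4 * (3 * s) ^ 3) ≤
      4 * s := by linarith
  calc 4 * (l : ℝ) ^ 2 * ((1 + 3 / 4 * (3 * s)) +
        ((Fintype.card (Sub n 2) : ℝ) * 105) / (4 * (3 * s) ^ 3))
      ≤ 4 * (l : ℝ) ^ 2 * (4 * s) := mul_le_mul_of_nonneg_left h8 h7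
    _ = 16 * (l : ℝ) ^ 2 * s := by ring

end KK14
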